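import Mathlib
import Pool.Agent.Q135.Sh.Main
import Pool.Agent.Q135.Sh.OneDim

/-!
# Shadows of Euclidean Vietoris-Rips complexes of samples
-/

namespace Pool.Agent.Results.MP_320b68_gt.ShadowsFail

open Set Filter Topology ContinuousMap
open Pool.Agent.Q135.Sh

theorem result :
    (∀ N : ℕ, 2 ≤ N → ∃ M : Set (EuclideanSpace ℝ (Fin N)), Admissible N M ∧
      ∀ β₀ : ℝ, 0 < β₀ → ∃ β : ℝ, 0 < β ∧ β < β₀ ∧ ∃ η₀ : ℝ, 0 < η₀ ∧
        (∀ η : ℝ, 0 < η → ∃ S : Set (EuclideanSpace ℝ (Fin N)), S.Finite ∧ S.Nonempty ∧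
          Metric.hausdorffDist S M < η) ∧
        ∀ S : Set (EuclideanSpace ℝ (Fin N)), S.Finite → S.Nonempty →
          Metric.hausdorffDist S M < η₀ → IsEmpty (shadow β S ≃ₕ M)) ∧
    (∀ M : Set (EuclideanSpace ℝ (Fin 1)), IsCompact M → IsConnected M →
      ∀ β : ℝ, 0 < β → ∃ η : ℝ, 0 < η ∧
        ∀ S : Set (EuclideanSpace ℝ (Fin 1)), S.Finite → S.Nonempty →
          Metric.hausdorffDist S M < η → Nonempty (shadow β S ≃ₕ M)) := by
  refine ⟨?_, ?_⟩
  · intro N hN
    obtain ⟨n, rfl⟩ : ∃ n, N = n + 2 := ⟨N - 2, by omega⟩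
    refine ⟨arc n '' Icc 0 1, (arc_biLip n).admissible, ?_⟩
    intro β₀ hβ₀
    -- choose a small scale
    obtain ⟨m, hm1, hm2⟩ : ∃ m : ℕ, 1 ≤ m ∧ lam m / 8 < β₀ := by
      obtain ⟨k, hk⟩ := exists_pow_lt_of_lt_one hβ₀ (by norm_num : (1 / 2 : ℝ) < 1)
      refine ⟨k + 1, by omega, ?_⟩
      have h1 : lam (k + 1) = (1 / 2) ^ k / 2 := by
        unfold lam
        rw [zpow_neg, zpow_natCast, pow_succ, one_div, inv_pow]
        field_simp
      rw [h1]
      have : (0 : ℝ) < (1 / 2) ^ k := by positivity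
      linarith
    have hl := lam_pos m
    refine ⟨lam m / 8, by positivity, hm2, lam m / 64, by positivity, ?_, ?_⟩
    · intro η hη
      have hc := (arc_biLip n).compact_image
      obtain ⟨T, hTM, hTf, hT⟩ := hc.finite_cover_balls (half_pos hη)
      have hTne : T.Nonempty := by
        have : arc n 0 ∈ ⋃ x ∈ T, Metric.ball x (η / 2) := hT ⟨0, by simp, rfl⟩
        simp only [mem_iUnion] at this
        obtain ⟨x, hx, -⟩ := this
        exact ⟨x, hx⟩
      refine ⟨T, hTf, hTne, ?_⟩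
      refine lt_of_le_of_lt (Metric.hausdorffDist_le_of_mem_dist (half_pos hη).le ?_ ?_)
        (half_lt_self hη)
      · intro x hx
        exact ⟨x, hTM hx, by rw [dist_self]; exact (half_pos hη).le⟩
      · intro x hx
        have := hT hx
        simp only [mem_iUnion, Metric.mem_ball] at this
        obtain ⟨y, hy, hxy⟩ := this
        exact ⟨y, hy, hxy.le⟩
    · intro S hSf hSne hd
      refine ⟨fun e => not_contractible n m hm1 S hSf hSne hd ?_⟩
      have : ContractibleSpace (arc n '' Icc (0 : ℝ) 1) := (arc_biLip n).contractible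
      exact e.contractibleSpace
  · intro M hc hconn β hβ
    exact ⟨β / 2, half_pos hβ, fun S hSf hSne hd => one_dim M hc hconn β hβ S hSf hSne hd⟩

end Pool.Agent.Results.MP_320b68_gt.ShadowsFail
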